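import Pool.Agent.W388.TW.D0

set_option autoImplicit false

open Complex Filter Topology Set MeasureTheory UpperHalfPlane MatrixGroups CongruenceSubgroup

namespace W54.TW

/-- the index set -/
abbrev Pr (N : ℕ) : Type := {p : ℤ × ℤ // IsCoprime p.1 p.2 ∧ (N : ℤ) ∣ p.1}

def row (N : ℕ) (γ : Gamma0 N) : Pr N :=
  ⟨((γ : SL(2, ℤ)) 1 0, (γ : SL(2, ℤ)) 1 1), ModularGroup.bottom_row_coprime (γ : SL(2, ℤ)), by
    have h := γ.2
    rw [Gamma0_mem] at h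
    exact (ZMod.intCast_zmod_eq_zero_iff_dvd _ _).mp h⟩

lemma im_eq (γ : SL(2, ℤ)) (z : ℍ) :
    (γ • z).im = z.im / ‖((γ 1 0 : ℤ) : ℂ) * (z : ℂ) + ((γ 1 1 : ℤ) : ℂ)‖ ^ 2 := by
  rw [ModularGroup.im_smul_eq_div_normSq, Complex.normSq_eq_norm_sq, ModularGroup.denom_apply]

/-- two elements with the same bottom row differ by a translation. -/
lemma eq_T (γ γ' : SL(2, ℤ)) (h0 : γ 1 0 = γ' 1 0) (h1 : γ 1 1 = γ' 1 1) :
    ∃ n : ℤ, γ' = ModularGroup.T ^ n * γ := by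
  have hd := γ.det_coe
  have hd' := γ'.det_coe
  rw [Matrix.det_fin_two] at hd hd'
  refine ⟨γ' 0 1 * γ 0 0 - γ' 0 0 * γ 0 1, ?_⟩
  ext i j
  rw [Matrix.SpecialLinearGroup.coe_mul, ModularGroup.coe_T_zpow]
  fin_cases i <;> fin_cases j
  · simp [Matrix.mul_apply, Fin.sum_univ_two]
    rw [← h0, ← h1] at hd'
    linear_combination (γ 0 0) * hd' - (γ' 0 0) * hd
  · simp [Matrix.mul_apply, Fin.sum_univ_two]
    rw [← h0, ← h1] at hd'
    linear_combination (γ 0 1) * hd' - (γ' 0 1) * hd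
  · simp [Matrix.mul_apply, Fin.sum_univ_two, h0]
  · simp [Matrix.mul_apply, Fin.sum_univ_two, h1]

lemma T_mul_10 (n : ℤ) (γ : SL(2, ℤ)) : (ModularGroup.T ^ n * γ) 1 0 = γ 1 0 := by
  rw [Matrix.SpecialLinearGroup.coe_mul, ModularGroup.coe_T_zpow]
  simp [Matrix.mul_apply, Fin.sum_univ_two]

lemma T_mul_11 (n : ℤ) (γ : SL(2, ℤ)) : (ModularGroup.T ^ n * γ) 1 1 = γ 1 1 := by
  rw [Matrix.SpecialLinearGroup.coe_mul, ModularGroup.coe_T_zpow]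
  simp [Matrix.mul_apply, Fin.sum_univ_two]

lemma exists_rep (N : ℕ) (z : ℍ) (p : Pr N) : ∃ γ : Gamma0 N, row N γ = p ∧
    0 ≤ ((γ : SL(2, ℤ)) • z).re ∧ ((γ : SL(2, ℤ)) • z).re < 1 := by
  obtain ⟨⟨c, d⟩, hcd, hN⟩ := p
  obtain ⟨g, -, hg⟩ := ModularGroup.bottom_row_surj (R := ℤ) (show ![c, d] ∈
    {cd : Fin 2 → ℤ | IsCoprime (cd 0) (cd 1)} by simpa using hcd)
  have hg0 : g 1 0 = c := by have := congrFun hg 0; simpa using this
  have hg1 : g 1 1 = d := by have := congrFun hg 1; simpa using this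
  set n : ℤ := -⌊(g • z).re⌋ with hn
  have hmem : ModularGroup.T ^ n * g ∈ Gamma0 N := by
    rw [Gamma0_mem, T_mul_10, hg0]
    exact (ZMod.intCast_zmod_eq_zero_iff_dvd _ _).mpr hN
  refine ⟨⟨ModularGroup.T ^ n * g, hmem⟩, ?_, ?_, ?_⟩
  · apply Subtype.ext
    show ((ModularGroup.T ^ n * g) 1 0, (ModularGroup.T ^ n * g) 1 1) = (c, d)
    rw [T_mul_10, T_mul_11, hg0, hg1]
  · show 0 ≤ ((ModularGroup.T ^ n * g) • z).re
    rw [mul_smul, ModularGroup.re_T_zpow_smul, hn]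
    push_cast
    linarith [Int.floor_le (g • z).re]
  · show ((ModularGroup.T ^ n * g) • z).re < 1
    rw [mul_smul, ModularGroup.re_T_zpow_smul, hn]
    push_cast
    linarith [Int.lt_floor_add_one (g • z).re]

lemma uniq_rep (N : ℕ) (z : ℍ) (γ γ' : Gamma0 N) (h : row N γ = row N γ')
    (h0 : 0 ≤ ((γ : SL(2, ℤ)) • z).re) (h1 : ((γ : SL(2, ℤ)) • z).re < 1)
    (h0' : 0 ≤ ((γ' : SL(2, ℤ)) • z).re) (h1' : ((γ' : SL(2, ℤ)) • z).re < 1) : γ' = γ := by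
  have hh := congrArg Subtype.val h
  have ha : (γ : SL(2, ℤ)) 1 0 = (γ' : SL(2, ℤ)) 1 0 := congrArg Prod.fst hh
  have hb : (γ : SL(2, ℤ)) 1 1 = (γ' : SL(2, ℤ)) 1 1 := congrArg Prod.snd hh
  obtain ⟨n, hn⟩ := eq_T _ _ ha hb
  have hn0 : n = 0 := by
    rw [hn, mul_smul, ModularGroup.re_T_zpow_smul] at h0' h1'
    have h2 : (n : ℝ) < 1 := by linarith
    have h3 : (-1 : ℝ) < n := by linarith
    have h4 : n < 1 := by exact_mod_cast h2
    have h5 : -1 < n := by exact_mod_cast h3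
    omega
  apply Subtype.ext
  rw [hn, hn0]
  simp

theorem t_eispairs : W388.StEisPairs := by
  intro N _ s z
  unfold W388.EisG
  rw [← (Equiv.sigmaFiberEquiv (row N)).tsum_eq, ENNReal.tsum_sigma']
  refine tsum_congr fun p => ?_
  obtain ⟨γ, hγ, h0, h1⟩ := exists_rep N z p
  rw [tsum_eq_single (⟨γ, hγ⟩ : {γ : Gamma0 N // row N γ = p})]
  · have hs : W388.strip ((γ : SL(2, ℤ)) • z) = 1 := by
      unfold W388.strip; rw [if_pos ⟨h0, h1⟩]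
    show W388.strip ((γ : SL(2, ℤ)) • z) * ENNReal.ofReal (((γ : SL(2, ℤ)) • z).im ^ s) = _
    rw [hs, one_mul, im_eq]
    have hp1 : (γ : SL(2, ℤ)) 1 0 = p.1.1 := by rw [← hγ]; rfl
    have hp2 : (γ : SL(2, ℤ)) 1 1 = p.1.2 := by rw [← hγ]; rfl
    rw [hp1, hp2]
  · rintro ⟨γ', hγ'⟩ hne
    show W388.strip ((γ' : SL(2, ℤ)) • z) * ENNReal.ofReal (((γ' : SL(2, ℤ)) • z).im ^ s) = 0
    have hs : W388.strip ((γ' : SL(2, ℤ)) • z) = 0 := by
      unfold W388.strip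
      rw [if_neg]
      rintro ⟨h0', h1'⟩
      apply hne
      apply Subtype.ext
      exact uniq_rep N z γ γ' (hγ.trans hγ'.symm) h0 h1 h0' h1'
    rw [hs, zero_mul]

end W54.TW
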