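import Pool.Agent.W388.TW.D0

set_option autoImplicit false

open Complex Filter Topology Set MeasureTheory UpperHalfPlane MatrixGroups CongruenceSubgroup

namespace W54.TW

instance : Countable SL(2, ℤ) := by
  have h : Function.Injective (fun A : SL(2, ℤ) => fun i j : Fin 2 => (A : Matrix _ _ ℤ) i j) := by
    intro A B h
    ext i j
    exact congrFun (congrFun h i) j
  exact h.countable

instance (N : ℕ) : Countable (Gamma0 N) := inferInstance

lemma lint_inv (γ : SL(2, ℤ)) (f : ℍ → ENNReal) :
    ∫⁻ z : ℍ, f (γ • z) = ∫⁻ z : ℍ, f z := by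
  have h1 : MeasurePreserving (fun z : ℍ => (γ : GL (Fin 2) ℝ) • z) volume volume :=
    measurePreserving_smul (γ : GL (Fin 2) ℝ) (volume : Measure ℍ)
  exact h1.lintegral_comp_emb (measurableEmbedding_const_smul (γ : GL (Fin 2) ℝ)) f

lemma meas_smul (γ : SL(2, ℤ)) : Measurable (fun z : ℍ => γ • z) := by
  have : Continuous (fun z : ℍ => (γ : GL (Fin 2) ℝ) • z) := continuous_const_smul _
  exact this.measurable

lemma meas_strip : Measurable W388.strip := by
  unfold W388.strip
  refine Measurable.ite ?_ measurable_const measurable_const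
  apply MeasurableSet.inter
  · exact measurableSet_le measurable_const UpperHalfPlane.continuous_re.measurable
  · exact measurableSet_lt UpperHalfPlane.continuous_re.measurable measurable_const

lemma meas_pow (s : ℝ) : Measurable (fun z : ℍ => ENNReal.ofReal (z.im ^ s)) := by
  apply Measurable.ennreal_ofReal
  exact UpperHalfPlane.continuous_im.measurable.pow_const s

noncomputable def P (N : ℕ) (g : ℍ → ENNReal) (z : ℍ) : ENNReal :=
  ∑' γ : Gamma0 N, W388.strip ((γ : SL(2, ℤ)) • z) * g ((γ : SL(2, ℤ)) • z)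

lemma meas_P (N : ℕ) (g : ℍ → ENNReal) (hg : Measurable g) : Measurable (P N g) := by
  unfold P
  refine Measurable.tsum fun γ => ?_
  exact (meas_strip.comp (meas_smul _)).mul (hg.comp (meas_smul _))

lemma P_inv (N : ℕ) (g : ℍ → ENNReal) (γ : SL(2, ℤ)) (hγ : γ ∈ Gamma0 N) (z : ℍ) :
    P N g (γ • z) = P N g z := by
  unfold P
  rw [← (Equiv.mulRight (⟨γ, hγ⟩ : Gamma0 N)).tsum_eq
    (fun δ : Gamma0 N => W388.strip ((δ : SL(2, ℤ)) • z) * g ((δ : SL(2, ℤ)) • z))]
  refine tsum_congr fun δ => ?_
  simp only [Equiv.coe_mulRight, Subgroup.coe_mul, mul_smul]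

lemma swap (N : ℕ) (g h : ℍ → ENNReal) (hg : Measurable g) (hh : Measurable h) :
    ∫⁻ z : ℍ, W388.strip z * g z * P N h z = ∫⁻ z : ℍ, W388.strip z * h z * P N g z := by
  unfold P
  simp only [← ENNReal.tsum_mul_left]
  rw [lintegral_tsum, lintegral_tsum]
  · rw [← (Equiv.inv (Gamma0 N)).tsum_eq]
    refine tsum_congr fun γ => ?_
    rw [← lint_inv (γ : SL(2, ℤ))]
    refine lintegral_congr fun z => ?_
    simp only [Equiv.inv_apply, Subgroup.coe_inv, inv_smul_smul]
    ring
  · intro γ
    exact ((meas_strip.mul hh).mul ((meas_strip.comp (meas_smul _)).mul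
      (hg.comp (meas_smul _)))).aemeasurable
  · intro γ
    exact ((meas_strip.mul hg).mul ((meas_strip.comp (meas_smul _)).mul
      (hh.comp (meas_smul _)))).aemeasurable

theorem t_unfold : W388.StUnfold := by
  intro N _ φ hφ hinv s hE
  have hEP : ∀ t : ℝ, W388.EisG N t = P N (fun z => ENNReal.ofReal (z.im ^ t)) := by
    intro t; rfl
  have hEm : ∀ t : ℝ, Measurable (W388.EisG N t) := by
    intro t; rw [hEP]; exact meas_P N _ (meas_pow t)
  have hEi : ∀ t : ℝ, ∀ γ : SL(2, ℤ), γ ∈ Gamma0 N → ∀ z : ℍ,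
      W388.EisG N t (γ • z) = W388.EisG N t z := by
    intro t γ hγ z; rw [hEP]; exact P_inv N _ γ hγ z
  set g : ℍ → ENNReal := fun z => φ z * ENNReal.ofReal (z.im ^ s) with hg
  set h : ℍ → ENNReal := fun z => ENNReal.ofReal (z.im ^ (2 : ℝ)) / W388.EisG N 2 z with hh
  have hgm : Measurable g := hφ.mul (meas_pow s)
  have hhm : Measurable h := (meas_pow 2).div (hEm 2)
  have hPg : ∀ z, P N g z = φ z * W388.EisG N s z := by
    intro z
    unfold P W388.EisG
    rw [← ENNReal.tsum_mul_left]
    refine tsum_congr fun γ => ?_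
    simp only [hg]
    rw [hinv _ γ.2]
    ring
  have hPh : ∀ z, P N h z = 1 := by
    intro z
    have h1 : P N h z = W388.EisG N 2 z * (W388.EisG N 2 z)⁻¹ := by
      unfold P
      conv_rhs => rw [W388.EisG, ← ENNReal.tsum_mul_right]
      refine tsum_congr fun γ => ?_
      simp only [hh]
      rw [hEi 2 _ γ.2, div_eq_mul_inv]
      unfold W388.EisG
      ring
    rw [h1, ENNReal.mul_inv_cancel (hE z).1 (hE z).2]
  have key := swap N g h hgm hhm
  simp only [hPh, mul_one, hPg] at key
  rw [key]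
  refine lintegral_congr fun z => ?_
  simp only [hh, div_eq_mul_inv]
  ring

end W54.TW
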